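import Pool.Agent.REV.StmtsV

/-!
# Row VNE of squad REV: the next density in the variable b
-/

set_option autoImplicit false

namespace Pool.Agent.REV.H96

open Set MeasureTheory Filter
open scoped Topology

/-- the substitution -/
noncomputable def g0 (β : ℝ) : ℝ := (Real.sqrt (1 + β ^ 2))⁻¹

lemma S_pos (β : ℝ) : 0 < Real.sqrt (1 + β ^ 2) := Real.sqrt_pos.2 (by positivity)

lemma S_sq (β : ℝ) : Real.sqrt (1 + β ^ 2) ^ 2 = 1 + β ^ 2 := Real.sq_sqrt (by positivity)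

lemma g0_pos (β : ℝ) : 0 < g0 β := inv_pos.2 (S_pos β)

lemma g0_sq (β : ℝ) : g0 β ^ 2 = (1 + β ^ 2)⁻¹ := by rw [g0, inv_pow, S_sq]

lemma g0_zero : g0 0 = 1 := by simp [g0]

lemma g0_inv {b : ℝ} (hb : 0 < b) : g0 (1 / b) = cb b := by
  have h1 : g0 (1 / b) ^ 2 = cb b ^ 2 := by
    rw [g0_sq, cb, div_pow b (Real.sqrt (1 + b ^ 2)) 2, S_sq]
    field_simp
    ring
  have h2 : 0 ≤ cb b := div_nonneg hb.le (S_pos b).le
  exact (sq_eq_sq₀ (g0_pos _).le h2).1 h1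

lemma g0_deriv (β : ℝ) : HasDerivAt g0 (-(β / Real.sqrt (1 + β ^ 2) ^ 3)) β := by
  have h1 : HasDerivAt (fun β : ℝ => 1 + β ^ 2) (2 * β) β := by
    have := (hasDerivAt_pow 2 β).const_add 1
    simpa using this
  have h2 := (h1.sqrt (by positivity)).inv (S_pos β).ne'
  have h3 : -(2 * β / (2 * Real.sqrt (1 + β ^ 2))) / Real.sqrt (1 + β ^ 2) ^ 2 =
      -(β / Real.sqrt (1 + β ^ 2) ^ 3) := by
    have := (S_pos β).ne'
    field_simp
  rw [h3] at h2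
  exact h2

lemma g0_lt {a β : ℝ} (ha : 0 ≤ a) (h : a < β) : g0 β < g0 a := by
  unfold g0
  refine inv_strictAnti₀ (S_pos a) (Real.sqrt_lt_sqrt (by positivity) ?_)
  have : a ^ 2 < β ^ 2 := by nlinarith
  linarith

lemma g0_image {a : ℝ} (ha : 0 ≤ a) : g0 '' Ioi a = Ioo 0 (g0 a) := by
  ext x
  constructor
  · rintro ⟨β, hβ, rfl⟩
    exact ⟨g0_pos β, g0_lt ha hβ⟩
  · rintro ⟨hx0, hx⟩
    have hx2 : x ^ 2 < (1 + a ^ 2)⁻¹ := by
      rw [← g0_sq]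
      exact pow_lt_pow_left₀ hx hx0.le two_ne_zero
    have hx3 : 1 + a ^ 2 < (x ^ 2)⁻¹ := by
      rw [lt_inv_comm₀ (by positivity) (by positivity)]
      exact hx2
    have hp : 0 ≤ (x ^ 2)⁻¹ - 1 := by nlinarith [sq_nonneg a]
    refine ⟨Real.sqrt ((x ^ 2)⁻¹ - 1), ?_, ?_⟩
    · rw [mem_Ioi]
      refine Real.lt_sqrt_of_sq_lt ?_
      linarith
    · have h1 : g0 (Real.sqrt ((x ^ 2)⁻¹ - 1)) ^ 2 = x ^ 2 := by
        rw [g0_sq, Real.sq_sqrt hp, add_sub_cancel, inv_inv]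
      exact (sq_eq_sq₀ (g0_pos _).le hx0.le).1 h1

lemma subst {a : ℝ} (ha : 0 ≤ a) (F : ℝ → ℝ) : ∫ x in (0 : ℝ)..(g0 a), F x =
    ∫ β in Ioi a, β / Real.sqrt (1 + β ^ 2) ^ 3 * F (g0 β) := by
  rw [intervalIntegral.integral_of_le (g0_pos a).le, integral_Ioc_eq_integral_Ioo, ← g0_image ha,
    integral_image_eq_integral_abs_deriv_smul measurableSet_Ioi
      (fun β _ => (g0_deriv β).hasDerivWithinAt)]
  · refine setIntegral_congr_fun measurableSet_Ioi fun β hβ => ?_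
    have hβ0 : 0 < β := lt_of_le_of_lt ha hβ
    have h1 : 0 ≤ β / Real.sqrt (1 + β ^ 2) ^ 3 := by positivity
    simp only [smul_eq_mul]
    rw [abs_neg, abs_of_nonneg h1]
  · intro x hx y hy hxy
    rcases lt_trichotomy x y with h | h | h
    · exact absurd hxy (g0_lt (ha.trans (le_of_lt hx)) h).ne'
    · exact h
    · exact absurd hxy (g0_lt (ha.trans (le_of_lt hy)) h).ne

lemma sq_rpow {x : ℝ} (hx : 0 ≤ x) (k : ℕ) : (x ^ 2) ^ ((k : ℝ) / 2) = x ^ k := by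
  rw [← Real.rpow_natCast x 2, ← Real.rpow_mul hx, ← Real.rpow_natCast x k]
  congr 1
  push_cast
  ring

lemma cb_pos {β : ℝ} (hβ : 0 < β) : 0 < cb β := div_pos hβ (S_pos β)

lemma one_sub (β : ℝ) : 1 - g0 β ^ 2 = cb β ^ 2 := by
  rw [g0_sq, cb, div_pow, S_sq]
  have : (1 + β ^ 2) ≠ 0 := by positivity
  field_simp
  ring

lemma one_sub_div {b β : ℝ} (hb : 0 < b) (hβ : 0 < β) :
    1 - g0 β ^ 2 / cb b ^ 2 = cb β ^ 2 * wb b β := by
  rw [g0_sq, cb, cb, div_pow, div_pow, S_sq, S_sq, wb]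
  have h1 : (1 + β ^ 2) ≠ 0 := by positivity
  have h2 : (1 + b ^ 2) ≠ 0 := by positivity
  field_simp
  ring

lemma wb_mem {b β : ℝ} (hb : 0 < b) (hβ : 1 / b < β) : 0 ≤ wb b β ∧ wb b β ≤ 1 := by
  have h1 : 1 < b * β := by
    rw [div_lt_iff₀ hb] at hβ
    linarith
  have h2 : 1 ≤ (b * β) ^ 2 := by nlinarith
  have h3 : ((b * β) ^ 2)⁻¹ ≤ 1 := inv_le_one_of_one_le₀ h2
  have h4 : 0 ≤ ((b * β) ^ 2)⁻¹ := by positivity
  unfold wb
  constructor <;> linarith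

/-- the value of the next density -/
lemma val {k : ℕ} {C σ : ℝ} {f f' : ℝ → ℝ} (h : StU (k + 4) C σ f f') {β : ℝ} (hβ : 0 < β) :
    f' (g0 β) = σ * (C * (RB (k + 4) f (cb β) * RA (k + 4) f (cb β) ^ (k + 2))) := by
  have hm : g0 β ∈ Icc (0 : ℝ) 1 := by
    refine ⟨(g0_pos β).le, ?_⟩
    rw [← g0_zero]
    exact (g0_lt le_rfl hβ).le
  rw [h _ hm]
  unfold TT
  rw [one_sub, Real.sqrt_sq (cb_pos hβ).le]
  have : k + 4 - 1 - 1 = k + 2 := by omega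
  rw [this]
  ring

lemma dph_eq (k : ℕ) (f : ℝ → ℝ) {β : ℝ} (hβ : 0 < β) : dph (k + 4) f β =
    ((k : ℝ) + 3) * ((k : ℝ) + 2) * (cb β ^ (k + 2) * RA (k + 4) f (cb β) ^ (k + 2)) *
      (RB (k + 4) f (cb β) / Real.sqrt (1 + β ^ 2) ^ 3) := by
  have h1 : k + 4 - 2 = k + 2 := by omega
  have hS := (S_pos β).ne'
  unfold dph yb zb
  rw [h1, mul_pow]
  have h2 : ((k : ℝ) + 2) / β ^ 3 * (cb β ^ 3 * RB (k + 4) f (cb β)) =
      ((k : ℝ) + 2) * (RB (k + 4) f (cb β) / Real.sqrt (1 + β ^ 2) ^ 3) := by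
    have : cb β ^ 3 = β ^ 3 / Real.sqrt (1 + β ^ 2) ^ 3 := by rw [cb, div_pow]
    rw [this]
    field_simp
  push_cast
  have h3 : (k : ℝ) + 4 - 1 = k + 3 := by ring
  have h4 : (k : ℝ) + 4 - 2 = k + 2 := by ring
  rw [h3, h4, h2]
  ring

lemma c3_eq (k : ℕ) (C : ℝ) : c3 (k + 4) C * (((k : ℝ) + 3) * ((k : ℝ) + 2)) = C := by
  unfold c3
  push_cast
  have h3 : (k : ℝ) + 4 - 1 = k + 3 := by ring
  have h4 : (k : ℝ) + 4 - 2 = k + 2 := by ring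
  rw [h3, h4]
  have : ((k : ℝ) + 3) * ((k : ℝ) + 2) ≠ 0 := by positivity
  field_simp

lemma RB_le (k : ℕ) {f : ℝ → ℝ} (hf : Prf f) : ∃ M : ℝ, 0 ≤ M ∧ ∀ c, |RB (k + 4) f c| ≤ M := by
  obtain ⟨M, hM⟩ := hf.bdd
  have hM0 : 0 ≤ M := (hf.nonneg 0).trans (hM 0)
  refine ⟨M, hM0, fun c => ?_⟩
  unfold RB
  have h1 := intervalIntegral.norm_integral_le_of_norm_le_const (a := (0 : ℝ)) (b := 1) (C := M)
    (f := fun r : ℝ => r ^ 2 * (1 - r ^ 2) ^ ((((k + 4 : ℕ) : ℝ) - 4) / 2) * f (r * c)) ?_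
  · simpa using h1
  · intro r hr
    rw [uIoc_of_le zero_le_one] at hr
    have hr2 : r ^ 2 ≤ 1 := by nlinarith [hr.1, hr.2]
    have h2 : (1 - r ^ 2) ^ ((((k + 4 : ℕ) : ℝ) - 4) / 2) ≤ 1 := by
      refine Real.rpow_le_one (by linarith) (by nlinarith [sq_nonneg r]) ?_
      push_cast
      have : (0 : ℝ) ≤ k := Nat.cast_nonneg k
      linarith
    have h3 : 0 ≤ (1 - r ^ 2) ^ ((((k + 4 : ℕ) : ℝ) - 4) / 2) := Real.rpow_nonneg (by linarith) _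
    rw [norm_mul, norm_mul, Real.norm_of_nonneg (sq_nonneg r), Real.norm_of_nonneg h3,
      Real.norm_of_nonneg (hf.nonneg _)]
    have h4 : r ^ 2 * (1 - r ^ 2) ^ ((((k + 4 : ℕ) : ℝ) - 4) / 2) ≤ 1 := mul_le_one₀ hr2 h3 h2
    calc r ^ 2 * (1 - r ^ 2) ^ ((((k + 4 : ℕ) : ℝ) - 4) / 2) * f (r * c) ≤ 1 * M :=
          mul_le_mul h4 (hM _) (hf.nonneg _) zero_le_one
      _ = M := one_mul M

/-- integrability of the first weight -/
lemma int1 (vdr : VdrStmt) (vlm : VlmStmt) (k : ℕ) {f : ℝ → ℝ} (hf : Prf f) {b : ℝ} (hb : 0 < b)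
    {p : ℝ} (hp : 0 ≤ p) :
    IntegrableOn (fun β : ℝ => wb b β ^ p * (β * dph (k + 4) f β)) (Ioi (1 / b)) ∧
    IntegrableOn (fun β : ℝ => wb b β ^ p * (β⁻¹ * dph (k + 4) f β)) (Ioi (1 / b)) := by
  obtain ⟨v1, v2, v3⟩ := vdr (k + 4) f (by omega) hf
  obtain ⟨_, _, l3, l4, _, _, l7, _, _⟩ := vlm (k + 4) f (by omega) hf
  obtain ⟨MB, hMB, hB⟩ := RB_le k hf
  have hb1 : 0 < 1 / b := by positivity
  have hsub : Ioi (1 / b) ⊆ Ioi (0 : ℝ) := Ioi_subset_Ioi hb1.le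
  have hmw : Measurable fun β : ℝ => wb b β ^ p := by
    unfold wb
    exact Measurable.pow_const (by fun_prop) p
  have hmd : AEStronglyMeasurable (dph (k + 4) f) (volume.restrict (Ioi (1 / b))) :=
    (v3.mono hsub).aestronglyMeasurable measurableSet_Ioi
  have hm1 : AEStronglyMeasurable (fun β : ℝ => wb b β ^ p * (β * dph (k + 4) f β))
      (volume.restrict (Ioi (1 / b))) :=
    hmw.aestronglyMeasurable.mul (measurable_id.aestronglyMeasurable.mul hmd)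
  have hm2 : AEStronglyMeasurable (fun β : ℝ => wb b β ^ p * (β⁻¹ * dph (k + 4) f β))
      (volume.restrict (Ioi (1 / b))) :=
    hmw.aestronglyMeasurable.mul (measurable_inv.aestronglyMeasurable.mul hmd)
  have hwle : ∀ β : ℝ, 1 / b < β → 0 ≤ wb b β ^ p ∧ wb b β ^ p ≤ 1 := by
    intro β hβ
    obtain ⟨h1, h2⟩ := wb_mem hb hβ
    exact ⟨Real.rpow_nonneg h1 _, Real.rpow_le_one h1 h2 hp⟩
  constructor
  · have hi : IntegrableOn (fun β : ℝ => (((k : ℝ) + 3) * ((k : ℝ) + 2) *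
        RA (k + 4) f 1 ^ (k + 2) * MB) * β ^ (-2 : ℝ)) (Ioi (1 / b)) :=
      (integrableOn_Ioi_rpow_of_lt (by norm_num) hb1).const_mul _
    refine Integrable.mono' hi hm1 ?_
    filter_upwards [self_mem_ae_restrict (μ := volume) (measurableSet_Ioi (a := 1 / b))] with β hβ
    have hβ0 : 0 < β := hb1.trans hβ
    obtain ⟨w0, w1⟩ := hwle β hβ
    have hd0 := (v1 β hβ0).2.2.2
    rw [Real.norm_of_nonneg (mul_nonneg w0 (mul_nonneg hβ0.le hd0))]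
    have h1 : wb b β ^ p * (β * dph (k + 4) f β) ≤ 1 * (β * dph (k + 4) f β) :=
      mul_le_mul_of_nonneg_right w1 (mul_nonneg hβ0.le hd0)
    refine h1.trans ?_
    rw [one_mul, dph_eq k f hβ0, ← mul_pow]
    have hy : cb β * RA (k + 4) f (cb β) = yb (k + 4) f β := rfl
    rw [hy]
    have hy1 : yb (k + 4) f β ^ (k + 2) ≤ RA (k + 4) f 1 ^ (k + 2) :=
      pow_le_pow_left₀ (l4 β hβ0.le).1 (l4 β hβ0.le).2 _
    have hy0 : 0 ≤ yb (k + 4) f β ^ (k + 2) := pow_nonneg (l4 β hβ0.le).1 _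
    have hrb : RB (k + 4) f (cb β) ≤ MB := (le_abs_self _).trans (hB _)
    have hS3 : β ^ 3 ≤ Real.sqrt (1 + β ^ 2) ^ 3 := by
      refine pow_le_pow_left₀ hβ0.le ?_ 3
      exact Real.le_sqrt_of_sq_le (by linarith)
    have hq : RB (k + 4) f (cb β) / Real.sqrt (1 + β ^ 2) ^ 3 ≤ MB / β ^ 3 := by
      have hS := S_pos β
      calc RB (k + 4) f (cb β) / Real.sqrt (1 + β ^ 2) ^ 3 ≤ MB / Real.sqrt (1 + β ^ 2) ^ 3 :=
            div_le_div_of_nonneg_right hrb (by positivity)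
        _ ≤ MB / β ^ 3 := div_le_div_of_nonneg_left hMB (by positivity) hS3
    have hk : 0 ≤ ((k : ℝ) + 3) * ((k : ℝ) + 2) := by positivity
    have hR0 : 0 ≤ RA (k + 4) f 1 ^ (k + 2) := pow_nonneg l3 _
    have e1 : β ^ (-2 : ℝ) = (β ^ 2)⁻¹ := by
      rw [Real.rpow_neg hβ0.le]
      norm_num
    calc β * (((k : ℝ) + 3) * ((k : ℝ) + 2) * yb (k + 4) f β ^ (k + 2) *
          (RB (k + 4) f (cb β) / Real.sqrt (1 + β ^ 2) ^ 3))
        ≤ β * (((k : ℝ) + 3) * ((k : ℝ) + 2) * yb (k + 4) f β ^ (k + 2) * (MB / β ^ 3)) := by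
          gcongr
      _ ≤ β * (((k : ℝ) + 3) * ((k : ℝ) + 2) * RA (k + 4) f 1 ^ (k + 2) * (MB / β ^ 3)) := by
          gcongr
      _ = ((k : ℝ) + 3) * ((k : ℝ) + 2) * RA (k + 4) f 1 ^ (k + 2) * MB * β ^ (-2 : ℝ) := by
          rw [e1]
          field_simp
  · have hi : IntegrableOn (fun β : ℝ => b * dph (k + 4) f β) (Ioi (1 / b)) :=
      (l7.mono_set hsub).const_mul b
    refine Integrable.mono' hi hm2 ?_
    filter_upwards [self_mem_ae_restrict (μ := volume) (measurableSet_Ioi (a := 1 / b))] with β hβ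
    have hβ0 : 0 < β := hb1.trans hβ
    obtain ⟨w0, w1⟩ := hwle β hβ
    have hd0 := (v1 β hβ0).2.2.2
    have hi0 : 0 ≤ β⁻¹ := (inv_pos.2 hβ0).le
    rw [Real.norm_of_nonneg (mul_nonneg w0 (mul_nonneg hi0 hd0))]
    have h1 : wb b β ^ p * (β⁻¹ * dph (k + 4) f β) ≤ 1 * (β⁻¹ * dph (k + 4) f β) :=
      mul_le_mul_of_nonneg_right w1 (mul_nonneg hi0 hd0)
    refine h1.trans ?_
    rw [one_mul]
    refine mul_le_mul_of_nonneg_right ?_ hd0
    have h2 : (1 / b) ≤ β := le_of_lt hβ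
    have h3 : β⁻¹ ≤ (1 / b)⁻¹ := inv_anti₀ hb1 h2
    rwa [one_div, inv_inv] at h3

theorem vne (crc : CrcStmt) (vdr : VdrStmt) (vlm : VlmStmt) : VneStmt := by
  intro n C σ f f' hn hC hσ hf hf' hst
  obtain ⟨k, rfl⟩ : ∃ k, n = k + 4 := ⟨n - 4, by omega⟩
  have x1 : ((((k + 4 : ℕ) : ℝ) - 2) / 2) = ((k + 2 : ℕ) : ℝ) / 2 := by push_cast; ring
  have x2 : ((((k + 4 : ℕ) : ℝ) - 4) / 2) = (k : ℝ) / 2 := by push_cast; ring
  have x3 : ((((k + 4 : ℕ) : ℝ) - 3) / 2) = ((k + 1 : ℕ) : ℝ) / 2 := by push_cast; ring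
  have hc3 := c3_eq k C
  constructor
  · intro b hb
    have hcb0 := cb_pos hb
    have hb1 : 0 < 1 / b := by positivity
    have hcb1 : cb b ≤ 1 := by
      rw [← g0_inv hb]
      exact (g0_lt le_rfl hb1).le.trans_eq g0_zero
    obtain ⟨c1, c2⟩ := crc (k + 4) f' (cb b) hcb0 hcb1
    refine ⟨(int1 vdr vlm k hf hb ?_).1, ?_, (int1 vdr vlm k hf hb ?_).2, ?_⟩
    · rw [x1]; positivity
    · have e1 : yb (k + 4) f' b = cb b * RA (k + 4) f' (cb b) := rfl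
      rw [e1, c1, ← g0_inv hb, subst hb1.le, g0_inv hb, ← integral_const_mul]
      refine setIntegral_congr_fun measurableSet_Ioi fun β hβ => ?_
      have hβ0 : 0 < β := hb1.trans hβ
      have hS := (S_pos β).ne'
      have e2 : (1 - g0 β ^ 2 / cb b ^ 2) ^ ((((k + 4 : ℕ) : ℝ) - 2) / 2) =
          cb β ^ (k + 2) * wb b β ^ ((((k + 4 : ℕ) : ℝ) - 2) / 2) := by
        rw [one_sub_div hb hβ0, Real.mul_rpow (sq_nonneg _) (wb_mem hb hβ).1]
        congr 1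
        rw [x1, sq_rpow (cb_pos hβ0).le]
      rw [e2, val hst hβ0, dph_eq k f hβ0]
      nth_rewrite 1 [← hc3]
      ring
    · rw [x2]; positivity
    · have e1 : zb (k + 4) f' b = cb b ^ 3 * RB (k + 4) f' (cb b) := rfl
      rw [e1, c2, ← g0_inv hb, subst hb1.le, g0_inv hb, ← integral_const_mul]
      refine setIntegral_congr_fun measurableSet_Ioi fun β hβ => ?_
      have hβ0 : 0 < β := hb1.trans hβ
      have hS := (S_pos β).ne'
      have e2 : (1 - g0 β ^ 2 / cb b ^ 2) ^ ((((k + 4 : ℕ) : ℝ) - 4) / 2) =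
          cb β ^ k * wb b β ^ ((((k + 4 : ℕ) : ℝ) - 4) / 2) := by
        rw [one_sub_div hb hβ0, Real.mul_rpow (sq_nonneg _) (wb_mem hb hβ).1]
        congr 1
        rw [x2, sq_rpow (cb_pos hβ0).le]
      have e3 : β * g0 β ^ 2 = β⁻¹ * cb β ^ 2 := by
        rw [g0, cb]
        field_simp
      rw [e2, val hst hβ0, dph_eq k f hβ0]
      nth_rewrite 1 [← hc3]
      have e4 : β / Real.sqrt (1 + β ^ 2) ^ 3 * (g0 β ^ 2 * (cb β ^ k * wb b β ^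
          ((((k + 4 : ℕ) : ℝ) - 4) / 2)) * (σ * (c3 (k + 4) C * (((k : ℝ) + 3) * ((k : ℝ) + 2)) *
          (RB (k + 4) f (cb β) * RA (k + 4) f (cb β) ^ (k + 2))))) =
          (β * g0 β ^ 2) * (cb β ^ k * wb b β ^
          ((((k + 4 : ℕ) : ℝ) - 4) / 2) * (σ * (c3 (k + 4) C * (((k : ℝ) + 3) * ((k : ℝ) + 2)) *
          (RB (k + 4) f (cb β) * RA (k + 4) f (cb β) ^ (k + 2))))) /
          Real.sqrt (1 + β ^ 2) ^ 3 := by ring
      rw [e4, e3, pow_add (cb β) k 2]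
      ring
  · have l8 := (vlm (k + 4) f (by omega) hf).2.2.2.2.2.2.2.1
    rw [← l8, ← integral_const_mul]
    unfold H0
    have s1 := subst (a := 0) le_rfl
      (fun x => x * (1 - x ^ 2) ^ ((((k + 4 : ℕ) : ℝ) - 3) / 2) * f' x)
    rw [g0_zero] at s1
    rw [s1]
    refine setIntegral_congr_fun measurableSet_Ioi fun β hβ => ?_
    have hβ0 : 0 < β := hβ
    have hS := (S_pos β).ne'
    have e2 : (1 - g0 β ^ 2) ^ ((((k + 4 : ℕ) : ℝ) - 3) / 2) = cb β ^ (k + 1) := by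
      rw [one_sub, x3, sq_rpow (cb_pos hβ0).le]
    have e3 : β * g0 β = cb β := by
      rw [g0, cb]
      field_simp
    rw [e2, val hst hβ0, dph_eq k f hβ0]
    nth_rewrite 1 [← hc3]
    have e4 : β / Real.sqrt (1 + β ^ 2) ^ 3 * (g0 β * cb β ^ (k + 1) * (σ * (c3 (k + 4) C *
        (((k : ℝ) + 3) * ((k : ℝ) + 2)) *
        (RB (k + 4) f (cb β) * RA (k + 4) f (cb β) ^ (k + 2))))) =
        (β * g0 β) * (cb β ^ (k + 1) * (σ * (c3 (k + 4) C *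
        (((k : ℝ) + 3) * ((k : ℝ) + 2)) *
        (RB (k + 4) f (cb β) * RA (k + 4) f (cb β) ^ (k + 2))))) /
        Real.sqrt (1 + β ^ 2) ^ 3 := by ring
    rw [e4, e3, pow_succ (cb β) (k + 1)]
    ring

end Pool.Agent.REV.H96
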